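import Mathlib
import Pool.Agent.H447R2.ML.R5
import Pool.Agent.H447R2.ML.Spec

set_option autoImplicit false

/-!
# Generalised Wagstaff primes with a fixed integer base

Let `b ≥ 2` be an integer.  For real `β > 0` and a prime `p` let `W b β p` be the `p`-rough part
(the product, with multiplicity, of the prime factors larger than `p`) of the smallest integer
`≥ β * b ^ p`.  For `β = 1 / (b + 1)` this is `Q(b, p) = (b ^ p + 1) / (b + 1)` itself for every odd
prime `p` not dividing `b + 1`.  Let `N b β n` be the number of primes `p ≤ n` with `W b β p` prime.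
For every integer `b ≥ 2` we prove that the mean of `N b β n` over every window of amplitudes `β` is
asymptotic to `(e ^ γ / log b) log n`, and that for almost every `β > 0` we have
`liminf N b β n / log n ≤ e ^ γ / log b ≤ limsup N b β n / log n`.
-/

namespace Pool.Agent.Results.MP_ce8d0c_nt.FixedBase

open Filter Topology MeasureTheory

/-- The product, with multiplicity, of the prime factors of `m` that are larger than `p`. -/
def roughPart (p m : ℕ) : ℕ := (m.primeFactorsList.filter (fun r => p < r)).prod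

/-- The `p`-rough part of the smallest integer `≥ β * b ^ p`. -/
noncomputable def W (b : ℕ) (β : ℝ) (p : ℕ) : ℕ := roughPart p ⌈β * b ^ p⌉₊

/-- The number of primes `p ≤ n` for which `W b β p` is prime. -/
noncomputable def N (b : ℕ) (β : ℝ) (n : ℕ) : ℕ :=
  ((Finset.range (n + 1)).filter (fun p => p.Prime ∧ (W b β p).Prime)).card

/-- The values at `β = 1 / (b + 1)`, the mean of the counting function over the amplitudes and the
almost everywhere statement, for every fixed integer base `b ≥ 2`. -/
theorem result (b : ℕ) (hb : 2 ≤ b) :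
    (∀ p : ℕ, p.Prime → p ≠ 2 → ¬ p ∣ b + 1 →
      W b (1 / ((b : ℝ) + 1)) p = (b ^ p + 1) / (b + 1)) ∧
    (∀ s t : ℝ, s < t → Tendsto (fun n : ℕ =>
        (∫ u in s..t, (N b (Real.exp u) n : ℝ)) / ((t - s) * Real.log n)) atTop
        (𝓝 (Real.exp Real.eulerMascheroniConstant / Real.log b))) ∧
    (∀ᵐ β : ℝ, 0 < β →
      (∀ c : ℝ, c < Real.exp Real.eulerMascheroniConstant / Real.log b →
        ∃ᶠ n : ℕ in atTop, c * Real.log n < N b β n) ∧
      (∀ c : ℝ, Real.exp Real.eulerMascheroniConstant / Real.log b < c →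
        ∃ᶠ n : ℕ in atTop, (N b β n : ℝ) < c * Real.log n)) := by
  have hb' : (2 : ℝ) ≤ b := by exact_mod_cast hb
  have key := Pool.Agent.H447R2.ML.shift_ceil (α := b) (κ := 1) (C := 1) (g := fun _ => 1)
    (by linarith) (by norm_num) (by linarith) (by intro p; simp)
  have hM : ∀ (x : ℝ), 0 < x → ∀ (n : ℕ),
      Pool.Agent.H447R2.ML.cc (fun p x => x * (b : ℝ) ^ p + 1) x n = N b x n := by
    intro x hx n
    unfold Pool.Agent.H447R2.ML.cc N W
    congr 1
    refine Finset.filter_congr fun p _ => ?_
    have h1 : ⌈x * (b : ℝ) ^ p + 1⌉₊ - 1 = ⌈x * (b : ℝ) ^ p⌉₊ := by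
      rw [Nat.ceil_add_one (by positivity), Nat.add_sub_cancel]
    simp only [h1]
    rfl
  refine ⟨?_, ?_, ?_⟩
  · intro p hp h2 hpd
    have hodd := hp.odd_of_ne_two h2
    have hpd' : ¬ (p : ℤ) ∣ (b : ℤ) - (-1) := by
      intro h
      apply hpd
      have : (b : ℤ) - (-1) = ((b + 1 : ℕ) : ℤ) := by push_cast; ring
      rw [this] at h
      exact Int.natCast_dvd_natCast.1 h
    have hbz : (2 : ℤ) ≤ b := by exact_mod_cast hb
    obtain ⟨Q, hQ⟩ : b + 1 ∣ b ^ p + 1 := by
      have := hodd.nat_add_dvd_pow_add_pow b 1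
      simpa using this
    have hQ' : (b : ℝ) ^ p + 1 = (b + 1) * Q := by exact_mod_cast hQ
    have hb1 : (0 : ℝ) < (b : ℝ) + 1 := by linarith
    have h := Pool.Agent.H447R2.ML.rough_quot (a := b) (b := -1) isCoprime_one_right.neg_right
      (by linarith) (by linarith) hp hpd' (x := (Q : ℝ)) (by
        push_cast
        rw [hodd.neg_one_pow]
        field_simp
        linarith)
    rw [Nat.floor_natCast] at h
    have hgeom : (∑ i ∈ Finset.range p, (b : ℤ) ^ i * (-1) ^ (p - 1 - i)) * (b - (-1)) =
        (b : ℤ) ^ p - (-1) ^ p := (Commute.all (b : ℤ) (-1)).geom_sum₂_mul p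
    have h4 : W b (1 / ((b : ℝ) + 1)) p = Pool.Agent.H305R2.roughPart p Q := by
      have hval : 1 / ((b : ℝ) + 1) * (b : ℝ) ^ p = Q - 1 / ((b : ℝ) + 1) := by
        field_simp
        linarith
      have h13 : 1 / ((b : ℝ) + 1) < 1 := by rw [div_lt_one hb1]; linarith
      have h14 : 0 < 1 / ((b : ℝ) + 1) := by positivity
      have hQ0 : Q ≠ 0 := by
        rintro rfl
        rw [mul_zero] at hQ
        omega
      have h6 : ⌈1 / ((b : ℝ) + 1) * (b : ℝ) ^ p⌉₊ = Q := by
        rw [Nat.ceil_eq_iff hQ0, hval]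
        constructor
        · rw [Nat.cast_sub (Nat.one_le_iff_ne_zero.2 hQ0)]
          push_cast
          linarith
        · linarith
      unfold W
      rw [h6]
      rfl
    rw [← h4] at h
    rw [← h, hodd.neg_one_pow] at hgeom
    have h5 : W b (1 / ((b : ℝ) + 1)) p * (b + 1) = b ^ p + 1 := by
      have : ((W b (1 / ((b : ℝ) + 1)) p * (b + 1) : ℕ) : ℤ) = ((b ^ p + 1 : ℕ) : ℤ) := by
        push_cast
        linarith
      exact_mod_cast this
    rw [← h5, Nat.mul_div_cancel _ (by omega)]
  · intro s t hst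
    refine (key.1 s t hst).congr fun n => ?_
    simp only [hM _ (Real.exp_pos _)]
  · filter_upwards [key.2] with β hβ h0
    rw [← funext (hM β h0)]
    exact hβ h0

end Pool.Agent.Results.MP_ce8d0c_nt.FixedBase
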