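import Mathlib
import Pool.Agent.H937.LocalAB

set_option autoImplicit false

/-!
# Generalized Wagstaff primes in the mean over real bases near an integer base
-/

namespace Pool.Agent.Results.MP_ce8d0c_nt.LocalBases

open Filter Topology MeasureTheory

/-- The product, with multiplicity, of the prime factors of `m` that are larger than `p`. -/
def roughPart (p m : ℕ) : ℕ := (m.primeFactorsList.filter (fun r => p < r)).prod

/-- The `p`-rough part of the integer part of `(x ^ p - (-1) ^ p) / (b + 1)`. -/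
noncomputable def W (b : ℕ) (x : ℝ) (p : ℕ) : ℕ :=
  roughPart p ⌊(x ^ p - (-1) ^ p) / ((b : ℝ) + 1)⌋₊

/-- The number of primes `p ≤ n` for which `W b x p` is prime. -/
noncomputable def N (b : ℕ) (x : ℝ) (n : ℕ) : ℕ :=
  ((Finset.range (n + 1)).filter (fun p => p.Prime ∧ (W b x p).Prime)).card

lemma W_eq (b : ℕ) (x : ℝ) (p : ℕ) : W b x p = Pool.Agent.H937.W b (-1) x p := by
  unfold W Pool.Agent.H937.W
  have e : (x ^ p - (((-1 : ℤ) : ℝ)) ^ p) / (((b : ℤ) : ℝ) - ((-1 : ℤ) : ℝ)) =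
      (x ^ p - (-1) ^ p) / ((b : ℝ) + 1) := by
    push_cast
    ring
  rw [e]
  rfl

lemma N_eq (b : ℕ) (x : ℝ) (n : ℕ) : N b x n = Pool.Agent.H937.M b (-1) x n := by
  unfold N Pool.Agent.H937.M
  simp only [W_eq]

/-- Generalized Wagstaff primes in the mean near the base `b`. -/
theorem result (b : ℕ) (hb : 2 ≤ b) :
    (∀ p : ℕ, p.Prime → p ≠ 2 → ¬ p ∣ b + 1 → W b b p * (b + 1) = b ^ p + 1) ∧
    (∀ u v : ℕ → ℝ, Tendsto u atTop (𝓝 (Real.log b)) → Tendsto v atTop (𝓝 (Real.log b)) →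
      (∀ p, u p < v p) → Tendsto (fun p : ℕ => (p : ℝ) * (v p - u p)) atTop atTop →
      Tendsto (fun p : ℕ =>
        (volume {τ : ℝ | τ ∈ Set.Ioc (u p) (v p) ∧ (W b (Real.exp τ) p).Prime}).toReal /
          (v p - u p) * (p / Real.log p)) atTop
        (𝓝 (Real.exp Real.eulerMascheroniConstant / Real.log b))) ∧
    (∀ u v : ℕ → ℝ, Tendsto u atTop (𝓝 (Real.log b)) → Tendsto v atTop (𝓝 (Real.log b)) →
      (∀ n, u n < v n) → Tendsto (fun n : ℕ => (v n - u n) * Real.log n) atTop atTop →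
      Tendsto (fun n : ℕ => (∫ τ in (u n)..(v n), (N b (Real.exp τ) n : ℝ)) /
        ((v n - u n) * Real.log n)) atTop
        (𝓝 (Real.exp Real.eulerMascheroniConstant / Real.log b))) := by
  have hb' : (2 : ℤ) ≤ (b : ℤ) := by exact_mod_cast hb
  have h1 : -(b : ℤ) < -1 := by omega
  have h2 : (-1 : ℤ) < (b : ℤ) := by omega
  have hk : Pool.Agent.H937.kap (-1) < Real.log b := by
    have := Pool.Agent.H937.kap_lt (a := (b : ℤ)) (b := -1) hb' h1 h2
    exact_mod_cast this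
  refine ⟨fun p hp hp2 hpd' => ?_, fun u v hu hv huv hw => ?_, fun u v hu hv huv hw => ?_⟩
  · have hpd : ¬ (p : ℤ) ∣ (b : ℤ) - (-1) := by
      intro h
      refine hpd' ?_
      have e : (b : ℤ) - (-1) = ((b + 1 : ℕ) : ℤ) := by push_cast; ring
      rw [e] at h
      exact_mod_cast h
    have hcop : IsCoprime (b : ℤ) (-1) := (isCoprime_one_right).neg_right
    have h := Pool.Agent.H937.W_special hcop h1 h2 hp hpd
    have e : ((((b : ℕ) : ℤ)) : ℝ) = (b : ℝ) := by norm_num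
    rw [e, ← W_eq] at h
    have hg : (∑ i ∈ Finset.range p, (b : ℤ) ^ i * (-1) ^ (p - 1 - i)) * ((b : ℤ) - (-1)) =
        (b : ℤ) ^ p - (-1) ^ p := (Commute.all (b : ℤ) (-1)).geom_sum₂_mul p
    rw [← h, (hp.odd_of_ne_two hp2).neg_one_pow] at hg
    have h5 : ((W b b p * (b + 1) : ℕ) : ℤ) = ((b ^ p + 1 : ℕ) : ℤ) := by
      push_cast
      linarith
    exact_mod_cast h5
  · simp only [W_eq]
    exact Pool.Agent.H937.local_AB h2 hk hu hv huv hw
  · simp only [N_eq]
    exact Pool.Agent.H937.mean_AB h2 hk hu hv huv hw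

end Pool.Agent.Results.MP_ce8d0c_nt.LocalBases
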