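import Mathlib
import Pool.Agent.H447R2.ML.P9
import Pool.Agent.H447R2.ML.Spec

set_option autoImplicit false

/-!
# Generalised Wagstaff primes in almost every real base

For a real base `x > 1` and a prime `p` let `W x p` be the `p`-rough part (the product, with
multiplicity, of the prime factors larger than `p`) of the integer part of
`(x ^ p + 1) / (x + 1)`.  For an integer `x = b ≥ 2` this is `Q(b, p) = (b ^ p + 1) / (b + 1)`
itself for every odd prime `p` not dividing `b + 1`.  We prove that for almost every real `x > 1`
the number `N x n` of primes `p ≤ n` with `W x p` prime satisfies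
`liminf N x n / log n ≤ e ^ γ / log x ≤ limsup N x n / log n`.
-/

namespace Pool.Agent.Results.MP_ce8d0c_nt.RealBaseWagstaff

open Filter Topology MeasureTheory

/-- The product, with multiplicity, of the prime factors of `m` that are larger than `p`. -/
def roughPart (p m : ℕ) : ℕ := (m.primeFactorsList.filter (fun r => p < r)).prod

/-- The `p`-rough part of the integer part of `(x ^ p + 1) / (x + 1)`. -/
noncomputable def W (x : ℝ) (p : ℕ) : ℕ := roughPart p ⌊(x ^ p + 1) / (x + 1)⌋₊

/-- The number of primes `p ≤ n` for which `W x p` is prime. -/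
noncomputable def N (x : ℝ) (n : ℕ) : ℕ :=
  ((Finset.range (n + 1)).filter (fun p => p.Prime ∧ (W x p).Prime)).card

/-- The metric theorem, together with the identification of the values at integer bases. -/
theorem result :
    (∀ b p : ℕ, 2 ≤ b → p.Prime → p ≠ 2 → ¬ p ∣ b + 1 → W b p = (b ^ p + 1) / (b + 1)) ∧
    (∀ᵐ x : ℝ, 1 < x →
      (∀ c : ℝ, c < Real.exp Real.eulerMascheroniConstant / Real.log x →
        ∃ᶠ n : ℕ in atTop, c * Real.log n < N x n) ∧
      (∀ c : ℝ, Real.exp Real.eulerMascheroniConstant / Real.log x < c →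
        ∃ᶠ n : ℕ in atTop, (N x n : ℝ) < c * Real.log n)) := by
  constructor
  · intro b p hb hp h2 hpd
    have hodd := hp.odd_of_ne_two h2
    have hpd' : ¬ (p : ℤ) ∣ (b : ℤ) - (-1) := by
      intro h
      apply hpd
      have : (b : ℤ) - (-1) = ((b + 1 : ℕ) : ℤ) := by push_cast; ring
      rw [this] at h
      exact Int.natCast_dvd_natCast.1 h
    have hb' : (2 : ℤ) ≤ b := by exact_mod_cast hb
    have h := Pool.Agent.H447R2.ML.rough_quot (a := b) (b := -1) isCoprime_one_right.neg_right
      (by linarith) (by linarith) hp hpd' (x := ((b : ℝ) ^ p + 1) / (b + 1)) (by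
        push_cast
        rw [hodd.neg_one_pow]
        ring)
    have h4 : ((W b p : ℕ) : ℤ) = ∑ i ∈ Finset.range p, (b : ℤ) ^ i * (-1) ^ (p - 1 - i) := h
    have hgeom : (∑ i ∈ Finset.range p, (b : ℤ) ^ i * (-1) ^ (p - 1 - i)) * (b - (-1)) =
        (b : ℤ) ^ p - (-1) ^ p := (Commute.all (b : ℤ) (-1)).geom_sum₂_mul p
    rw [← h4, hodd.neg_one_pow] at hgeom
    have h5 : W b p * (b + 1) = b ^ p + 1 := by
      have : ((W b p * (b + 1) : ℕ) : ℤ) = ((b ^ p + 1 : ℕ) : ℤ) := by
        push_cast
        linarith
      exact_mod_cast this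
    rw [← h5, Nat.mul_div_cancel _ (by omega)]
  · refine Pool.Agent.H447R2.ML.one_param_val (val := fun p x => (x ^ p + 1) / (x + 1))
      (y' := fun p t => p * Real.exp (p * t) / (Real.exp (p * t) + 1) +
        (-(Real.exp t / (Real.exp t + 1)))) ?_ ?_ ?_
    · intro p
      exact ((measurable_id.pow_const p).add_const 1).div (measurable_id.add_const 1)
    · intro p hp x hx
      have h1 : 1 < x ^ p := one_lt_pow₀ hx (by omega)
      exact div_pos (by linarith) (by linarith)
    · have hne : ∀ t : ℝ, 0 < Real.exp t + 1 := by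
        intro t
        have := Real.exp_pos t
        linarith
      refine Pool.Agent.H447R2.ML.fam_of (ε := 1) (by norm_num)
        (H := fun t => -Real.log (Real.exp t + 1)) ?_ ?_ ?_
      · intro t ht
        exact ((((Real.hasDerivAt_exp t).add_const 1).log (hne t).ne').neg)
      · refine ContinuousOn.neg (ContinuousOn.div (by fun_prop) (by fun_prop) ?_)
        intro t ht
        exact (hne t).ne'
      · intro p hp t ht
        have e : Real.exp t ^ p = Real.exp (p * t) := (Real.exp_nat_mul t p).symm
        rw [e, Real.log_div (hne (p * t)).ne' (hne t).ne']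
        ring

end Pool.Agent.Results.MP_ce8d0c_nt.RealBaseWagstaff
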